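import Pool.Agent.PST.StmtsCL
import Pool.Agent.Helper41_PSS.PRQ
import Pool.Agent.Helper92_PSS.FCO
import Pool.Agent.Helper20_PSS.FPX

/-!
# Squad PST, block CL, row QRF: fixed vectors of the special fibre (edit of Helper41_PSS/PRQ.lean)
-/

open scoped BigOperators TensorProduct PowerSeries

noncomputable section

namespace Pool.Agent.PST.H84

open Pool.Agent.PFC (tw IsTv)
open Pool.Agent.PFD.D2b (FrR)
open Pool.Agent.PSS

/-- row QRF -/
theorem qrf : QrfStmt := by
  intro ℓ _ F W E A As _ _ _ _ _ _ _ _ _ ψ om γ q hW hper hsc hsurj hker hqw P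
  classical
  have hℓF : (ℓ : F) = 0 := CharP.cast_eq_zero F ℓ
  have hqs : ∀ (r : F⟦X⟧) (a : As), q (r • a) = PowerSeries.constantCoeff r • q a := by
    intro r a
    rw [Algebra.smul_def, map_mul, hsc, ← Algebra.smul_def]
  obtain ⟨Ω, _, _, b, c, hfr, -⟩ := hper
  let _ : MulAction W Ω := MulAction.compHom Ω ((MonoidHom.id W).prod (MonoidHom.id W))
  have hfW : FrR (cw F⟦X⟧ γ) b c := ⟨fun g t => hfr.1 (g, g) t, fun g t n => hfr.2.1 (g, g) t n,
    hfr.2.2⟩
  have hc0 : ∀ t, ∃ c0 : A →ₗ[F] F, ∀ a, c0 (q a) = PowerSeries.constantCoeff (c t a) :=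
    fun t => ⟨(S3.H41.c0 hsc hsurj hker (c t)).1, (S3.H41.c0 hsc hsurj hker (c t)).2⟩
  choose d hd using hc0
  have hq : ∀ (h : W) (a : As), q (cw F⟦X⟧ γ h a) = cw F om h (q a) := by
    intro h a
    change q (γ h * (a * γ h⁻¹)) = om h * (q a * om h⁻¹)
    rw [map_mul, map_mul, hqw, hqw]
  have hfA : FrR (cw F om) (fun t => q (b t)) d := by
    refine ⟨?_, ?_, ?_⟩
    · intro g t
      dsimp only
      rw [hfW.1, hq]
    · intro g t n
      obtain ⟨m, rfl⟩ := hsurj n
      rw [← hq, hd, hd, hfW.2.1]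
    · intro n
      obtain ⟨m, rfl⟩ := hsurj n
      conv_rhs => rw [← hfW.2.2 m, map_sum]
      refine Finset.sum_congr rfl fun t _ => ?_
      rw [hd, hqs]
  have hbfx : ∀ t : Ω, (∀ h ∈ P, h • t = t) → b t ∈ FxR (cw F⟦X⟧ γ) P := by
    intro t ht h hh
    rw [← hfW.1, ht h hh]
  constructor
  · intro z hz
    refine ⟨∑ t, PowerSeries.C (d t z) • b t, ?_, ?_⟩
    · intro h hh
      rw [map_sum]
      refine Fintype.sum_equiv (MulAction.toPerm h) _ _ ?_
      intro t
      rw [map_smul, ← hfW.1]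
      change _ = PowerSeries.C (d (h • t) z) • b (h • t)
      have h2 := hfA.2.1 h t z
      rw [hz h hh] at h2
      rw [h2]
    · rw [map_sum]
      refine Eq.trans ?_ (hfA.2.2 z)
      refine Finset.sum_congr rfl fun t _ => ?_
      rw [hqs, PowerSeries.constantCoeff_C]
  · intro a ha hz
    have h1 : ∀ t : Ω, (∀ h ∈ P, h • t = t) → ∃ r, c t a = PowerSeries.X * r := by
      intro t ht
      have h2 := S0.H92.fco ℓ F W A Ω (cw F om) (fun t => q (b t)) d hℓF hW hfA P _ hz t ht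
      rw [hd] at h2
      exact PowerSeries.X_dvd_iff.2 h2
    choose! r hr using h1
    have hK : ∀ t, t ∈ Finset.univ.filter (fun t : Ω => ∀ h ∈ P, h • t = t) ↔
        ∀ h ∈ P, h • t = t := by
      intro t
      rw [Finset.mem_filter]
      exact ⟨fun h => h.2, fun h => ⟨Finset.mem_univ _, h⟩⟩
    have h3 := H20.fpx F⟦X⟧ W As Ω (cw F⟦X⟧ γ) P (fun t => c t a • b t)
      (Finset.univ.filter (fun t : Ω => ∀ h ∈ P, h • t = t)) (by
      intro h hh t
      rw [map_smul, hfW.1]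
      have h4 := hfW.2.1 h t a
      rw [ha h hh] at h4
      rw [h4]) hK
    rw [hfW.2.2] at h3
    refine ⟨∑ t ∈ Finset.univ.filter (fun t : Ω => ∀ h ∈ P, h • t = t), r t • b t, ?_, ?_⟩
    · exact Submodule.sum_mem _ fun t ht => Submodule.smul_mem _ _ (hbfx t ((hK t).1 ht))
    · rw [Finset.smul_sum]
      have h5 : ∑ t ∈ Finset.univ.filter (fun t : Ω => ∀ h ∈ P, h • t = t),
          (PowerSeries.X : F⟦X⟧) • r t • b t =
          ∑ t ∈ Finset.univ.filter (fun t : Ω => ∀ h ∈ P, h • t = t), c t a • b t := by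
        refine Finset.sum_congr rfl fun t ht => ?_
        rw [hr t ((hK t).1 ht), mul_smul]
      rw [h5]
      exact h3

end Pool.Agent.PST.H84
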