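import Pool.Agent.PST.StmtsU
import Pool.Agent.Helper91_PSS.CEN

/-!
# Squad PST, block U, row CNA: the centre of the lift is onto the centre of `As`
-/

open scoped BigOperators TensorProduct PowerSeries

noncomputable section

namespace Pool.Agent.PST.U.H84

open Pool.Agent.PFD.D2 (Cdv FibG)
open Pool.Agent.PSS

/-- row CNA -/
theorem cna : CnaStmt := by
  intro R F V A A₀ As _ _ _ _ _ _ _ _ _ _ _ W α cv f D θ q hθs hθj hq hk hH hlift z₀ hz₀
  -- the centre of `As`
  let M : Submodule F⟦X⟧ As :=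
    { carrier := {z | ∀ a, z * a = a * z}
      add_mem' := by
        intro x y hx hy a
        rw [add_mul, mul_add, hx a, hy a]
      zero_mem' := by
        intro a
        rw [zero_mul, mul_zero]
      smul_mem' := by
        intro c x hx a
        rw [smul_mul_assoc, hx a, mul_smul_comm] }
  have hM : ∀ z, z ∈ M ↔ ∀ a, z * a = a * z := fun z => Iff.rfl
  have hsurj : ∀ r : F⟦X⟧, ∃ r' : PowerSeries R, PowerSeries.map cv.κ r' = r := by
    intro r
    choose s hs using cv.surj
    refine ⟨PowerSeries.mk fun n => s (PowerSeries.coeff n r), ?_⟩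
    ext n
    rw [PowerSeries.coeff_map, PowerSeries.coeff_mk, hs]
  let N : Submodule F⟦X⟧ As :=
    { carrier := {y | ∃ z : D.R, (∀ a, z * a = a * z) ∧ θ z = y}
      add_mem' := by
        rintro _ _ ⟨z, hz, rfl⟩ ⟨z', hz', rfl⟩
        exact ⟨z + z', fun a => by rw [add_mul, mul_add, hz a, hz' a], map_add _ _ _⟩
      zero_mem' := ⟨0, fun a => by rw [zero_mul, mul_zero], map_zero _⟩
      smul_mem' := by
        rintro c _ ⟨z, hz, rfl⟩
        obtain ⟨c', rfl⟩ := hsurj c
        exact ⟨c' • z, fun a => by rw [smul_mul_assoc, hz a, mul_smul_comm], hθs c' z⟩ }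
  have hqs : Function.Surjective q := by
    intro a₀
    obtain ⟨a, rfl⟩ := f.surj a₀
    refine ⟨θ (D.of (Dm.cst a)), ?_⟩
    rw [hq]
    rfl
  have hX : ∀ y : As, (PowerSeries.X : F⟦X⟧) • y = 0 → y = 0 := by
    intro y hy
    exact (smul_eq_zero.1 hy).resolve_left PowerSeries.X_ne_zero
  have hle : M ≤ N ⊔ (Ideal.span {(PowerSeries.X : F⟦X⟧)}) • M := by
    intro z hz
    have hqz : ∀ a₀, q z * a₀ = a₀ * q z := by
      intro a₀
      obtain ⟨a, rfl⟩ := hqs a₀
      rw [← map_mul, hz a, map_mul]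
    obtain ⟨y, hy, hfy⟩ := hlift (q z) hqz
    obtain ⟨Z, hZ, hZ0⟩ := Pool.Agent.PSS.H91.cen R W A (aw α W) D hH y hy
    have h1 : q (θ Z) = q z := by
      have h2 := hq (D.sq Z)
      rw [D.of_sq, hZ0, hfy] at h2
      exact h2
    obtain ⟨z₁, hz₁⟩ := hk (z - θ Z) (by rw [map_sub, h1, sub_self])
    have hθZ : ∀ a, θ Z * a = a * θ Z := by
      intro a
      obtain ⟨b, rfl⟩ := hθj a
      rw [← map_mul, hZ b, map_mul]
    have hz₁M : z₁ ∈ M := by
      intro a
      have h2 : (PowerSeries.X : F⟦X⟧) • (z₁ * a - a * z₁) = 0 := by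
        rw [smul_sub, ← smul_mul_assoc, ← mul_smul_comm, ← hz₁, sub_mul, mul_sub, hz a, hθZ a,
          sub_self]
      exact sub_eq_zero.1 (hX _ h2)
    have h3 : z = θ Z + (PowerSeries.X : F⟦X⟧) • z₁ := by
      rw [← hz₁]
      abel
    rw [h3]
    refine Submodule.add_mem_sup ⟨Z, hZ, rfl⟩ ?_
    exact Submodule.smul_mem_smul (Ideal.mem_span_singleton_self _) hz₁M
  have hfg : M.FG := IsNoetherian.noetherian M
  have hjac : Ideal.span {(PowerSeries.X : F⟦X⟧)} ≤ Ideal.jacobson ⊥ := by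
    rw [IsLocalRing.jacobson_eq_maximalIdeal _ bot_ne_top, Ideal.span_le,
      Set.singleton_subset_iff]
    exact (IsLocalRing.mem_maximalIdeal _).2 PowerSeries.X_prime.not_isUnit
  exact Submodule.le_of_le_smul_of_le_jacobson_bot hfg hjac hle hz₀

end Pool.Agent.PST.U.H84
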