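import Pool.Agent.PST.StmtsK1

/-!
# Squad PST, row ZIJ: the Brauer map at a subgroup centralised by `E` is injective on the centre
-/

open scoped BigOperators

noncomputable section

namespace Pool.Agent.PST.H84

open Pool.Agent.PFC (tw IsTv)
open Pool.Agent.PFD.D2b (FrR)
open Pool.Agent.PSS
open Pool.Agent.PSS.S0 (IsBQ)

theorem cw_frame {F V E A : Type} [Field F] [CommGroup V] [Group E] [Ring A] [Algebra F A]
    {φ : E →* MulAut V} {α : V →* A} (h : Per F φ α) :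
    ∃ (Ω : Type) (_ : Fintype Ω) (_ : MulAction V Ω) (b : Ω → A) (c : Ω → (A →ₗ[F] F)),
      FrR (cw F α) b c := by
  obtain ⟨Ω, iΩ, aΩ, b, c, ⟨h1, h2, h3⟩, -⟩ := h
  let act : MulAction V Ω :=
    MulAction.compHom Ω (MonoidHom.prod (MonoidHom.id V) (MonoidHom.id V))
  exact ⟨Ω, iΩ, act, b, c, fun g t => h1 (g, g) t, fun g t n => h2 (g, g) t n, h3⟩

theorem cw_apply {F V A : Type} [Field F] [CommGroup V] [Ring A] [Algebra F A] (α : V →* A)
    (u : V) (a : A) : cw F α u a = α u * a * α u⁻¹ := by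
  show α u * (a * α u⁻¹) = α u * a * α u⁻¹
  rw [mul_assoc]

theorem central_fx {F V A : Type} [Field F] [CommGroup V] [Ring A] [Algebra F A] (α : V →* A)
    (P : Subgroup V) (z : A) (hz : ∀ a, z * a = a * z) : z ∈ FxR (cw F α) P := by
  intro u _
  rw [cw_apply, ← hz (α u), mul_assoc, ← map_mul, mul_inv_cancel, map_one, mul_one]

theorem bkr_bot {F V A : Type} [Field F] [CommGroup V] [Ring A] [Algebra F A] (α : V →* A)
    (z : A) (hz : z ∈ BKR (cw F α) ⊥) : z = 0 := by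
  have h1 : BKR (cw F α) ⊥ ≤ ⊥ := by
    refine Submodule.span_le.2 ?_
    rintro n ⟨P', S, m, hlt, -⟩
    exact absurd hlt not_lt_bot
  exact (Submodule.mem_bot F).1 (h1 hz)

/-- ZIJ -/
theorem zij (adx : AdxStmt) (lsa : LsaStmt) (fco : S0.FcoStmt) (fbk : S0.FbkStmt)
    (ftr : S0.FtrStmt) (bqx : S0.BqxStmt) (bbk : S0.BbkStmt) (bcl : S0.BclStmt)
    (bkf : S0.BkfStmt) : ZijStmt := by
  classical
  intro ℓ _ F V E A _ _ _ _ _ _ _ _ φ α Q hp hE hA hQ z hz hzQ
  by_contra hz0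
  have hl : (ℓ : F) = 0 := CharP.cast_eq_zero F ℓ
  have hfx : ∀ P : Subgroup V, z ∈ FxR (cw F α) P := fun P => central_fx α P z hz
  -- the maximal subgroup
  have hfin : {S : Subgroup V | z ∉ BKR (cw F α) S}.Finite := Set.toFinite _
  have hne : {S : Subgroup V | z ∉ BKR (cw F α) S}.Nonempty :=
    ⟨⊥, fun h => hz0 (bkr_bot α z h)⟩
  obtain ⟨S, hS⟩ := hfin.exists_maximal hne
  have hS1 : z ∉ BKR (cw F α) S := hS.1
  have hS2 : ∀ P' : Subgroup V, S < P' → z ∈ BKR (cw F α) P' := by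
    intro P' hlt
    by_contra hn
    exact absurd (hS.2 (y := P') hn hlt.le) (not_le_of_gt hlt)
  -- `Q` is not contained in `S`
  have hQS : ¬ Q ≤ S := by
    intro hle
    obtain ⟨Ω, _, _, b, c, hfr⟩ := cw_frame hA.per
    refine hS1 (fbk F V A Ω (cw F α) b c hfr S z (hfx S) ?_)
    intro ω hω
    exact fco ℓ F V A Ω (cw F α) b c hl hp hfr Q z hzQ ω (fun h hh => hω h (hle hh))
  obtain ⟨q, hqQ, hqS⟩ := SetLike.not_le_iff_exists.1 hQS
  -- the Brauer quotient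
  obtain ⟨B, _, _, αB, β, hq⟩ := bqx F V A α S
  let E1 : Subgroup E :=
    { carrier := {e | ∀ s ∈ S, φ e s = s}
      one_mem' := by
        intro s _
        rw [map_one]
        rfl
      mul_mem' := by
        intro e e' h h' s hs
        rw [map_mul, MulAut.mul_apply, h' s hs, h s hs]
      inv_mem' := by
        intro e h s hs
        have h1 := h s hs
        rw [map_inv]
        calc (φ e)⁻¹ s = (φ e)⁻¹ (φ e s) := by rw [h1]
          _ = s := MulAut.inv_apply_self _ _ _ }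
  have hE1 : ∀ e, e ∈ E1 ↔ ∀ s ∈ S, φ e s = s := fun e => Iff.rfl
  have hB : Cl F (φ.comp E1.subtype) αB := bcl ℓ F V E A B φ α S αB β E1 hp hE hA hq hE1
  obtain ⟨lam, K, _, x, y, hRF, -⟩ := hA.rt
  have hb := fun P : Subgroup V =>
    bbk ℓ F V E A B K φ α S αB β lam x y P hl hp hA.per hRF hq
  have hz1 : β z ≠ 0 := fun h => hS1 ((hq.ker z (hfx S)).1 h)
  have hzc : ∀ w : B, β z * w = w * β z := by
    intro w
    obtain ⟨a, ha, rfl⟩ := hq.surj w
    rw [← hq.mul z (hfx S) a ha, ← hq.mul a ha z (hfx S), hz]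
  have hz2 : ∀ P' : Subgroup V, S < P' → β z ∈ BKR (cw F αB) P' := by
    intro P' hlt
    have h1 := ((hb P').1 z (hfx _)).2
    rw [sup_eq_left.2 hlt.le] at h1
    exact h1.2 (hS2 P' hlt)
  obtain ⟨ΩB, _, _, bB, cB, hfrB⟩ := cw_frame hB.per
  obtain ⟨m, hm, T, hT, hmT⟩ := ftr ℓ F V B ΩB (cw F αB) bB cB hl hp hfrB S (β z)
    (central_fx αB ⊤ (β z) hzc) hz2
  have hzero : ∀ n ∈ BKR (cw F αB) S, n = 0 := by
    intro n hn
    have h1 : n ∈ FxR (cw F αB) S := bkf F V B (cw F αB) S hn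
    obtain ⟨a, ha, rfl⟩ := (hb S).2 n h1
    have h2 := ((hb S).1 a ha).2.1 hn
    rw [sup_idem] at h2 ha
    exact (hq.ker a ha).2 h2
  have hzT : β z = ∑ t ∈ T, αB t * m * αB t⁻¹ := by
    have h1 := sub_eq_zero.1 (hzero _ hmT)
    rw [h1]
    exact Finset.sum_congr rfl fun t _ => cw_apply αB t m
  obtain ⟨lamB, KB, _, xB, yB, hRFB, u, hu⟩ := hB.rt
  have hcard : ¬ ℓ ∣ Nat.card E1 := fun h => hE (h.trans (Subgroup.card_subgroup_dvd_card E1))
  obtain ⟨e, he1, he2, he3⟩ := adx ℓ F V E1 (φ.comp E1.subtype) S q hp hcard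
    (fun g s hs => g.2 s hs) (fun g => hQ g q hqQ) hqS
  have hu' : u * rt xB yB 1 = 1 := by
    have h1 : rt xB yB 1 = ∑ k, xB k * yB k :=
      Finset.sum_congr rfl fun k _ => by rw [mul_one]
    rw [h1, hu]
  have hr := lsa ℓ F V E1 B KB (φ.comp E1.subtype) αB lamB xB yB u e S T hp hcard hB hRFB hu'
    he1 he2 he3 hT m hm
  rw [← hzT] at hr
  have hr2 : rt xB yB (β z) = (∑ k, xB k * yB k) * β z := by
    rw [Finset.sum_mul]
    refine Finset.sum_congr rfl fun k _ => ?_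
    rw [mul_assoc, hzc, mul_assoc]
  apply hz1
  calc β z = u * (∑ k, xB k * yB k) * β z := by rw [hu, one_mul]
    _ = 0 := by rw [mul_assoc, ← hr2, hr, mul_zero]

end Pool.Agent.PST.H84
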