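import Pool.Agent.PST.StmtsK4
import Pool.Agent.Helper84_PSS.BCL

/-!
# Squad PST, block KEY, row KYA: assembly of `KeyStmt`
-/

open scoped BigOperators

noncomputable section

namespace Pool.Agent.PST.H84

open Pool.Agent.PFC (tw IsTv)
open Pool.Agent.PFD.D2 (Cdv FibG)
open Pool.Agent.PFD.D2b (FrR)
open Pool.Agent.PSS
open Pool.Agent.PSS.S0 (IsBQ)
open Pool.Agent.PSS.S0.H84 (mem_fx bq_sub fx_anti)

/-- the centraliser of `S` in `E` -/
def cenE {V E : Type} [CommGroup V] [Group E] (φ : E →* MulAut V) (S : Subgroup V) :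
    Subgroup E where
  carrier := {e | ∀ s ∈ S, φ e s = s}
  one_mem' := by
    intro s _
    rw [map_one]
    rfl
  mul_mem' := by
    intro e e' h h' s hs
    rw [map_mul, MulAut.mul_apply, h' s hs, h s hs]
  inv_mem' := by
    intro e h s hs
    have h1 := h s hs
    rw [map_inv]
    calc (φ e)⁻¹ s = (φ e)⁻¹ (φ e s) := by rw [h1]
      _ = s := MulAut.inv_apply_self _ _ _

theorem mem_cenE {V E : Type} [CommGroup V] [Group E] (φ : E →* MulAut V) (S : Subgroup V)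
    (e : E) : e ∈ cenE φ S ↔ ∀ s ∈ S, φ e s = s := Iff.rfl

section d1

variable {V B : Type} [CommGroup V] [Ring B]

theorem d1_wb2 (β : V →* B) (W : Subgroup V) (g : B → B) (hg : WBl β W g) :
    WB2 β W (d1 g) := by
  intro w hw x y
  refine ⟨?_, ?_, ?_⟩
  · simp only [d1]
    rw [mul_assoc (β w) x y, (hg w hw (x * y)).1, (hg w hw x).1]
    noncomm_ring
  · simp only [d1]
    rw [(hg w hw x).2, (hg w hw y).1]
    simp only [mul_assoc]
  · simp only [d1]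
    rw [(hg w hw y).2, ← mul_assoc x y (β w), (hg w hw (x * y)).2]
    noncomm_ring

theorem d1_nrm (g : B → B) (hg : g 1 = 0) : Nrm (d1 g) := by
  constructor
  · intro x
    simp only [d1]
    rw [hg, one_mul, one_mul, zero_mul, add_zero, sub_self]
  · intro x
    simp only [d1]
    rw [hg, mul_one, mul_one, mul_zero, zero_sub, neg_add_cancel]

theorem d1_dl (g : B → B) (x y z : B) : dl (d1 g) x y z = 0 := by
  simp only [dl, d1, mul_assoc]
  noncomm_ring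

end d1

/-- KYA -/
theorem kya : KyaStmt := by
  classical
  intro drx oba lfx obw obx obr ycb vtx lal qwv bqx bpu bcl
  intro ℓ _ R K F V E A A₀ B κ Ω _ _ _ _ _ _ _ _ _ _ _ _ _ _ _ _ _ _ _ _ _ _ _ _ _ _ φ W cv f
    α₀ lam₀ x₀ y₀ b₀ c₀ α lam x y b c u₁ C n la χ xx t D g hpg hcop hpi hch hcl hst hfr0 hrf0 hlv
    hu₁ hdrd hgW hg1 hgi hekc m₁ cc hm₁ hcc hbi
  have hl : (ℓ : F) = 0 := CharP.cast_eq_zero F ℓ
  have hK : Kx ℓ φ W C f α₀ lam₀ x₀ y₀ b₀ c₀ :=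
    ⟨hpg, hcop, hpi, hch, hcl, hst, hfr0, hrf0, hlv⟩
  obtain ⟨-, hQ⟩ := qwv ℓ V E φ W hpg hcop hch.sw
  refine obr ℓ R K F V E A A₀ B κ Ω φ W α lam x y b c C cv f α₀ lam₀ x₀ y₀ b₀ c₀ cc hK hcc hQ ?_
  -- the Brauer quotient at `Q`
  obtain ⟨BQ, _, _, αQ, βQ, hBQ⟩ := bqx F V A₀ α₀ (QW0 φ W)
  obtain ⟨-, -, lamQ, KQ, _, xQ, yQ, hrfQ, hlamQ⟩ := bpu ℓ F V E A₀ BQ κ φ α₀ (QW0 φ W) αQ βQ
    lam₀ x₀ y₀ (cenE φ (QW0 φ W)) hl hpg hcl.per hcl.uni hrf0 hBQ (mem_cenE φ _)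
  have hfin : FiniteDimensional F BQ :=
    (bcl ℓ F V E A₀ BQ φ α₀ (QW0 φ W) αQ βQ (cenE φ (QW0 φ W)) hpg hcop hcl hBQ
      (mem_cenE φ _)).fin
  have hex : ∀ u v : V, ∃ w : BQ, (∀ s, w * s = s * w) ∧ (u ∈ QW0 φ W → v ∈ QW0 φ W →
      ∀ z ∈ FxR (cw R α) (QW0 φ W), ∀ ρ : R,
        algebraMap R K ρ = (ℓ : K) * C.lamK (C.i z * kp C.i α cc u v) →
        lamQ (βQ (f.q z) * w) = cv.κ ρ) := by
    intro u v
    by_cases huv : u ∈ QW0 φ W ∧ v ∈ QW0 φ W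
    · obtain ⟨w, hw1, hw2⟩ := obw ℓ R K F V E A A₀ B κ Ω BQ KQ φ W α lam x y b c C cv f α₀ lam₀
        x₀ y₀ b₀ c₀ cc (QW0 φ W) αQ βQ lamQ xQ yQ hK hcc hBQ hrfQ hlamQ u huv.1 v huv.2
      exact ⟨w, hw1, fun _ _ => hw2⟩
    · exact ⟨0, fun s => by rw [zero_mul, mul_zero], fun h1 h2 => absurd ⟨h1, h2⟩ huv⟩
  choose w hwc hw using hex
  obtain ⟨o1, o2, o3, o4, o5⟩ := obx ℓ R K F V E A A₀ B κ Ω BQ KQ φ W α lam x y b c C cv f α₀ lam₀
    x₀ y₀ b₀ c₀ cc (QW0 φ W) αQ βQ lamQ xQ yQ w hK hcc hBQ hrfQ hlamQ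
    (fun u hu v hv => hw u v hu hv)
  have hmain : ∀ u ∈ QW0 φ W, ∀ v ∈ QW0 φ W, w u v = 0 := by
    -- the relation
    have hrel : ∀ r ∈ QW0 φ W, r ∉ W → ∃ m : Fin n → BQ,
        (∀ l, IsNilpotent (m l) ∧ ∀ s, m l * s = s * m l) ∧
        ∑ l, (algebraMap F BQ (t l * la l r) + m l) * ∑ u, xx l u • w u r = 0 := by
      intro r hrQ hrW
      obtain ⟨Br, _, _, αB, β, hB⟩ := bqx F V A₀ α₀ (Subgroup.zpowers r)
      obtain ⟨-, -, lamB, KB, _, xB, yB, hrfB, hlamB⟩ := bpu ℓ F V E A₀ Br κ φ α₀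
        (Subgroup.zpowers r) αB β lam₀ x₀ y₀ (cenE φ (Subgroup.zpowers r)) hl hpg hcl.per hcl.uni
        hrf0 hB (mem_cenE φ _)
      have hm₁' : (fun a b => m₁ a b) = d1 g := by
        funext a b
        exact hm₁ a b
      obtain ⟨δ, hδ1, hδ2, hδ3, hδ4⟩ := drx ℓ R K F V E A A₀ B κ Ω Br KB φ W α lam x y b c C cv f
        α₀ lam₀ x₀ y₀ b₀ c₀ m₁ cc r αB β lamB xB yB hK
        (by rw [hm₁']; exact d1_wb2 _ W g hgW) (by rw [hm₁']; exact d1_nrm g hg1)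
        (fun a₁ a₂ => by rw [hm₁]; exact hgi a₁ a₂)
        (fun a₁ a₂ a₃ => by rw [hm₁']; exact d1_dl g a₁ a₂ a₃) hcc hbi hrW (hch.pw r) hB hrfB
        hlamB
      -- the element `e`
      obtain ⟨e, he⟩ : ∃ e : A, C.i e = ∑ j ∈ Finset.range ℓ,
          d1 g (C.i (α (r ^ j))) (C.i (α r)) * C.i (α (r ^ (j + 1))⁻¹) := by
        choose a ha using fun j : ℕ => hgi (α (r ^ j)) (α r)
        refine ⟨∑ j ∈ Finset.range ℓ, a j * α (r ^ (j + 1))⁻¹, ?_⟩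
        rw [map_sum]
        refine Finset.sum_congr rfl fun j _ => ?_
        rw [map_mul, ha]
      obtain ⟨he1, he2⟩ := ycb ℓ R K F V A A₀ B κ Ω Br W α lam x y b c C cv f α₀ lam₀ x₀ y₀ b₀ c₀
        g r e αB β hpg hfr0 hlv hgW hg1 hgi hrW (hch.pw r) hB he
      have hDr : D r ∈ FxR (cw F α₀) (Subgroup.zpowers r) := fx_anti α₀ le_top (hdrd.fx r)
      have hβ : β (D r) = β (f.q e) := by
        have h1 := (hB.ker _ (Submodule.sub_mem _ he1 hDr)).2 (hekc r hrW e he)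
        rw [bq_sub hB he1 hDr] at h1
        exact (sub_eq_zero.1 h1).symm
      have hδ0 : δ (β (D r)) = 0 := by
        rw [hβ]
        refine hδ4 e ?_
        rw [he]
        exact Finset.sum_congr rfl fun j _ => by rw [hm₁]
      refine vtx ℓ F V E A₀ Br BQ κ KB KQ φ α₀ lam₀ x₀ y₀ W n la χ xx t D r αB β lamB xB yB αQ βQ
        lamQ xQ yQ δ (fun u => w u r) hpg hcop hch hcl hrf0 hdrd hrQ hrW hB hrfB hlamB hBQ hrfQ
        hlamQ hδ1 hδ2 (by rw [hβ]; exact he2) hδ0 (fun u _ s => hwc u r s) ?_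
      intro u hu z₀ hz₀
      obtain ⟨z, hz, rfl⟩ := (lfx R F V A A₀ κ Ω cv f α₀ lam₀ x₀ y₀ b₀ c₀ α lam x y b c hfr0 hlv
        (QW0 φ W)).1 z₀ hz₀
      have hzc := (mem_fx (R := R) α (QW0 φ W) z).1 hz
      obtain ⟨ρ, hρ⟩ := (oba R K V A B κ Ω W α lam x y b c C cc hcc).2.2.2 z ℓ u r
        (hzc u hu).symm (hzc r hrQ).symm (hch.pw u)
      rw [hδ3 z u ρ (hzc r hrQ).symm (hzc u hu).symm hρ]
      exact (hw u r hu hrQ z hz ρ hρ).symm
    -- linear algebra in the centre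
    let w' : V → V → Subalgebra.center F BQ := fun u v =>
      ⟨w u v, Subalgebra.mem_center_iff.2 fun s => (hwc u v s).symm⟩
    have hw' : ∀ u v, ((w' u v : Subalgebra.center F BQ) : BQ) = w u v := fun u v => rfl
    have h0 := lal F V E (Subalgebra.center F BQ) φ W (QW0 φ W) n la χ xx t w' hdrd.eg hQ
      (fun u hu u' hu' v hv => Subtype.ext (o1 u hu u' hu' v hv))
      (fun u hu v hv => Subtype.ext (o2 u hu v hv)) (fun u hu => Subtype.ext (o3 u hu))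
      (fun u hu v hv h => Subtype.ext (o4 u hu v hv h)) (by
      intro r hrQ hrW
      obtain ⟨m, hm1, hm2⟩ := hrel r hrQ hrW
      refine ⟨fun l => ⟨m l, Subalgebra.mem_center_iff.2 fun s => ((hm1 l).2 s).symm⟩, ?_, ?_⟩
      · intro l
        obtain ⟨k, hk⟩ := (hm1 l).1
        exact ⟨k, Subtype.ext hk⟩
      · have hinj : Function.Injective (Subalgebra.center F BQ).val := Subtype.coe_injective
        apply hinj
        rw [map_sum, map_zero, ← hm2]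
        refine Finset.sum_congr rfl fun l _ => ?_
        rw [map_mul, map_add, AlgHom.commutes, map_sum]
        rfl)
    intro u hu v hv
    exact congrArg Subtype.val (h0 u hu v hv)
  intro u hu v hv z hz
  exact o5 u hu v hv (hmain u hu v hv) z hz

end Pool.Agent.PST.H84
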