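import Pool.Agent.PST.StmtsGR

/-!
# Squad PST, block GR, row MCA: the image of a chain
-/

noncomputable section

namespace Pool.Agent.PST.H84

open Pool.Agent.PSS

theorem chain_le {ℓ : ℕ} {V : Type} [Group V] {E : Subgroup (MulAut V)} {P W : Subgroup V}
    (h : ChA ℓ E P W) : W ≤ P := by
  induction h with
  | refl P => exact le_refl _
  | step P P' W hs _ ih => exact ih.trans hs.le

theorem map_mem_iff {V V' : Type} [Group V] [Group V'] (π : V →* V') (P' : Subgroup V)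
    (hk : π.ker ≤ P') (v : V) (hv : π v ∈ P'.map π) : v ∈ P' := by
  obtain ⟨u, hu, he⟩ := hv
  have h1 : v * u⁻¹ ∈ π.ker := by
    rw [MonoidHom.mem_ker, map_mul, map_inv, he, mul_inv_cancel]
  have h2 := P'.mul_mem (hk h1) hu
  rw [inv_mul_cancel_right] at h2
  exact h2

theorem sta_map {ℓ : ℕ} {V V' : Type} [Group V] [Group V'] {E : Subgroup (MulAut V)}
    {E' : Subgroup (MulAut V')} {π : V →* V'} (hq : Qr E E' π) {P P' : Subgroup V}
    (h : StA ℓ E P P') (hk : π.ker ≤ P') : StA ℓ E' (P.map π) (P'.map π) := by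
  refine ⟨Subgroup.map_mono h.le, ?_, ?_⟩
  · rintro a' ha' _ ⟨u, hu, rfl⟩
    obtain ⟨a, ha, hl⟩ := hq.lif a' ha'
    rw [← hl u]
    exact ⟨a u, h.st a ha u hu, rfl⟩
  · rcases h.tp with ⟨Y, h1, h2, ⟨y, hy, hc⟩, h3⟩ | ⟨h2, hp, hf, hab⟩
    · refine Or.inl ⟨Y.map π, ?_, ?_, ⟨π y, ⟨y, hy, rfl⟩, ?_⟩, ?_⟩
      · rw [eq_bot_iff]
        rintro _ ⟨⟨z, hz, rfl⟩, hz2⟩
        have hz3 : z ∈ P' := map_mem_iff π P' hk z hz2
        have hz4 : z ∈ Y ⊓ P' := ⟨hz, hz3⟩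
        rw [h1, Subgroup.mem_bot] at hz4
        rw [hz4, map_one]
        exact Subgroup.mem_bot.2 rfl
      · rw [← Subgroup.map_sup, h2]
      · rintro _ ⟨x, hx, rfl⟩
        obtain ⟨k, hk2⟩ := hc x hx
        exact ⟨k, by rw [hk2, map_zpow]⟩
      · rintro a' ha' _ ⟨x, hx, rfl⟩
        obtain ⟨a, ha, hl⟩ := hq.lif a' ha'
        rw [← hl x]
        exact ⟨a x, h3 a ha x hx, rfl⟩
    · refine Or.inr ⟨h2, ?_, ?_, ?_⟩
      · rintro _ ⟨v, hv, rfl⟩
        exact ⟨v ^ ℓ, hp v hv, map_pow _ _ _⟩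
      · rintro a' ha' _ ⟨v, hv, rfl⟩ hn hm _ ⟨w, hw, rfl⟩
        obtain ⟨a, ha, hl⟩ := hq.lif a' ha'
        rw [← hl v, ← map_inv, ← map_mul] at hm
        have hm2 := map_mem_iff π P' hk _ hm
        have hn2 : v ∉ P' := fun hv2 => hn ⟨v, hv2, rfl⟩
        rw [← hl w, ← map_inv, ← map_mul]
        exact ⟨_, hf a ha v hv hn2 hm2 w hw, rfl⟩
      · rintro a' ha' b' hb' _ ⟨v, hv, rfl⟩
        obtain ⟨a, ha, hla⟩ := hq.lif a' ha'
        obtain ⟨b, hb, hlb⟩ := hq.lif b' hb'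
        rw [← hlb v, ← hla (b v), ← hla v, ← hlb (a v), hab a ha b hb v hv]

/-- MCA -/
theorem mca : McaStmt := by
  intro ℓ V V' _ _ E E' π hq P W h
  induction h with
  | refl P =>
    intro _
    exact ChA.refl _
  | step P P' W hs hc ih =>
    intro hk
    exact ChA.step _ _ _ (sta_map hq hs (hk.trans (chain_le hc))) (ih hk)

end Pool.Agent.PST.H84
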