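import Pool.Agent.PST.StmtsET1

/-!
# Squad PST, block ET, row ZSU: the Casimir element of `S`
-/

open scoped BigOperators TensorProduct

noncomputable section

namespace Pool.Agent.PST.ET.H84

open Pool.Agent.PFD.D2 (Cdv FibG)

theorem sub_pow_l {T : Type} [CommRing T] (ℓ : ℕ) [hp : Fact ℓ.Prime] (h : (ℓ : T) = 0)
    (x y : T) : (x - y) ^ ℓ = x ^ ℓ - y ^ ℓ := by
  rcases subsingleton_or_nontrivial T with hs | hs
  · exact Subsingleton.elim _ _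
  · have hc : CharP T ℓ := by
      obtain ⟨p, hpp⟩ := CharP.exists T
      have h1 : p ∣ ℓ := (CharP.cast_eq_zero_iff T p ℓ).1 h
      rcases (Nat.dvd_prime hp.out).1 h1 with h2 | h2
      · exact absurd h2 (CharP.char_ne_one T p)
      · rw [← h2]
        exact hpp
    exact sub_pow_char x y

/-- row ZSU -/
theorem zsu (gbs : GbsStmt) (gns : GnsStmt) (dif : DifStmt) (det : DetStmt) (jcu : JcuStmt)
    (wun : WunStmt) (css : CssStmt) : ZsuStmt := by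
  intro ℓ r _ R F V S _ _ _ _ _ _ _ _ _ c σ cf lam xx t σ' hV hE hS hP hσ'
  obtain ⟨b, K, hK1, hK2, hbij⟩ := gbs ℓ r F V lam xx t hV hE
  choose G hG1 hG2 using hP
  let i1 : S →ₐ[R] S ⊗[R] S := Algebra.TensorProduct.includeLeft
  let i2 : S →ₐ[R] S ⊗[R] S := Algebra.TensorProduct.includeRight
  have hi1 : ∀ s, i1 s = s ⊗ₜ[R] (1 : S) := fun s => rfl
  have hi2 : ∀ s, i2 s = (1 : S) ⊗ₜ[R] s := fun s => rfl
  have hgen := gns ℓ r R F V S c σ cf b hS hbij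
  have hdif := dif r R S (S ⊗[R] S) i1 i2 (fun i => σ (b i)) hgen
  have hex : ∀ s : S, ∃ a : Fin r → S ⊗[R] S,
      ∑ i, a i * (i1 (σ (b i)) - i2 (σ (b i))) = i1 s - i2 s := fun s =>
    Ideal.mem_span_range_iff_exists_fun.1 (hdif s)
  choose a ha using hex
  have hM : ∀ j, G (b j) ⊗ₜ[R] (1 : S) - (1 : S) ⊗ₜ[R] G (b j) =
      ∑ i, Matrix.of (fun j i => a (G (b j)) i) j i *
        (σ (b i) ⊗ₜ[R] (1 : S) - (1 : S) ⊗ₜ[R] σ (b i)) := fun j => (ha (G (b j))).symm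
  have hlT : ((ℓ : ℕ) : S ⊗[R] S) = 0 := by
    rw [← map_natCast (algebraMap R (S ⊗[R] S)), CharP.cast_eq_zero R ℓ, map_zero]
  have hpow : ∀ j, (σ (b j) ⊗ₜ[R] (1 : S) - (1 : S) ⊗ₜ[R] σ (b j)) ^ ℓ =
      algebraMap R (S ⊗[R] S) c.π * ∑ i, Matrix.of (fun j i => a (G (b j)) i) j i *
        (σ (b i) ⊗ₜ[R] (1 : S) - (1 : S) ⊗ₜ[R] σ (b i)) := by
    intro j
    rw [← hM j, sub_pow_l ℓ hlT, ← hi1, ← hi2, ← map_pow, ← map_pow, hG1, map_add, map_add,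
      map_one, map_one, map_smul, map_smul, hi1, hi2, add_sub_add_left_eq_sub, ← smul_sub,
      Algebra.smul_def]
  obtain ⟨e1, e2, e3⟩ := det ℓ r (S ⊗[R] S) (algebraMap R (S ⊗[R] S) c.π)
    (fun i => σ (b i) ⊗ₜ[R] (1 : S) - (1 : S) ⊗ₜ[R] σ (b i))
    (Matrix.of (fun j i => a (G (b j)) i)) hpow
  let Δ : S ⊗[R] S := (Matrix.diagonal (fun j =>
    (σ (b j) ⊗ₜ[R] (1 : S) - (1 : S) ⊗ₜ[R] σ (b j)) ^ (ℓ - 1)) -
      algebraMap R (S ⊗[R] S) c.π • Matrix.of (fun j i => a (G (b j)) i)).det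
  have hkill : ∀ s : S, (s ⊗ₜ[R] (1 : S)) * Δ = ((1 : S) ⊗ₜ[R] s) * Δ := by
    intro s
    rw [← sub_eq_zero, ← sub_mul, ← hi1, ← hi2, ← ha s, Finset.sum_mul]
    refine Finset.sum_eq_zero fun i _ => ?_
    have h1 : Δ * (i1 (σ (b i)) - i2 (σ (b i))) = 0 := e1 i
    rw [mul_assoc, mul_comm _ Δ, h1, mul_zero]
  have hcss := css R V S σ σ' (cf 1) hσ' Δ hkill
  obtain ⟨w, hw⟩ := wun ℓ r R F V S c σ cf b Δ hV hS hbij e3
  obtain ⟨D, hD⟩ := jcu ℓ r R F V S c σ cf lam xx t b K (fun j => G (b j))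
    (Matrix.of (fun j i => a (G (b j)) i)) hV hE hS hK2 (fun j u => hG2 (b j) u) hM
  have h2 : (Algebra.TensorProduct.lmul' (S := S) R).toRingHom Δ =
      (-(Algebra.TensorProduct.lmul' (S := S) R).toRingHom (algebraMap R (S ⊗[R] S) c.π)) ^ r *
        ((Algebra.TensorProduct.lmul' (S := S) R).toRingHom.mapMatrix
          (Matrix.of (fun j i => a (G (b j)) i))).det := by
    refine e2 S (Algebra.TensorProduct.lmul' (S := S) R).toRingHom fun j => ?_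
    show Algebra.TensorProduct.lmul' (S := S) R
      (σ (b j) ⊗ₜ[R] (1 : S) - (1 : S) ⊗ₜ[R] σ (b j)) = 0
    rw [map_sub, Algebra.TensorProduct.lmul'_apply_tmul, Algebra.TensorProduct.lmul'_apply_tmul,
      mul_one, one_mul, sub_self]
  have h3 : (Algebra.TensorProduct.lmul' (S := S) R).toRingHom (algebraMap R (S ⊗[R] S) c.π) =
      algebraMap R S c.π := (Algebra.TensorProduct.lmul' (S := S) R).commutes c.π
  have h4 : (w : S) * ∑ v, σ v * σ' v = (-algebraMap R S c.π) ^ r * (D : S) := by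
    rw [hw, hD, ← hcss, ← h3]
    exact h2
  refine ⟨((w⁻¹ : Sˣ) : S) * ((-1) ^ r * (D : S)), ?_, ?_⟩
  · exact (Units.isUnit _).mul (((isUnit_one.neg).pow r).mul (Units.isUnit _))
  · calc ∑ v, σ v * σ' v = ((w⁻¹ : Sˣ) : S) * ((w : S) * ∑ v, σ v * σ' v) := by
          rw [← mul_assoc, Units.inv_mul, one_mul]
      _ = c.π ^ r • (((w⁻¹ : Sˣ) : S) * ((-1) ^ r * (D : S))) := by
          rw [h4, Algebra.smul_def, map_pow, neg_pow]
          ring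

end Pool.Agent.PST.ET.H84
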